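import Mathlib
import Pool.Agent.Helper35.PI.St2

/-!
Module PO of project PI (MP_b2fa09_gt): pointwise algebraic facts on a mean curvature flow.
-/

namespace Helper51.PI

open Helper35.PI
open scoped ContDiff Manifold Topology ENNReal BigOperators
open MeasureTheory Set Filter

/-- Pure linear algebra: the inequalities for a matrix of vectors `X a b` with trace `H`. -/
theorem po_alg {n N : ℕ} (X : Fin n → Fin n → EE N) (H : EE N) (hH : H = ∑ a, X a a) :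
    0 ≤ (∑ a, ∑ b, ‖X a b‖ ^ 2) ∧
    0 ≤ (∑ a, ∑ b, (inner ℝ (X a b) H : ℝ) ^ 2) ∧
    (‖H‖ ^ 2) ^ 2 ≤ n * ∑ a, ∑ b, (inner ℝ (X a b) H : ℝ) ^ 2 ∧
    (∑ a, ∑ b, (inner ℝ (X a b) H : ℝ) ^ 2) ≤ (∑ a, ∑ b, ‖X a b‖ ^ 2) * ‖H‖ ^ 2 ∧
    ‖H‖ ^ 2 ≤ n * ∑ a, ∑ b, ‖X a b‖ ^ 2 := by
  have h1 : 0 ≤ (∑ a, ∑ b, ‖X a b‖ ^ 2) :=
    Finset.sum_nonneg fun a _ => Finset.sum_nonneg fun b _ => sq_nonneg _
  have h2 : 0 ≤ (∑ a, ∑ b, (inner ℝ (X a b) H : ℝ) ^ 2) :=
    Finset.sum_nonneg fun a _ => Finset.sum_nonneg fun b _ => sq_nonneg _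
  refine ⟨h1, h2, ?_, ?_, ?_⟩
  · have e1 : ‖H‖ ^ 2 = ∑ a, (inner ℝ (X a a) H : ℝ) := by
      rw [← real_inner_self_eq_norm_sq, ← sum_inner, ← hH]
    have e2 : (∑ a, (inner ℝ (X a a) H : ℝ)) ^ 2
        ≤ n * ∑ a, (inner ℝ (X a a) H : ℝ) ^ 2 := by
      have := sq_sum_le_card_mul_sum_sq (s := (Finset.univ : Finset (Fin n)))
        (f := fun a => (inner ℝ (X a a) H : ℝ))
      simpa using this
    rw [e1]
    refine e2.trans ?_
    refine mul_le_mul_of_nonneg_left ?_ (Nat.cast_nonneg n)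
    refine Finset.sum_le_sum fun a _ => ?_
    exact Finset.single_le_sum (f := fun b => (inner ℝ (X a b) H : ℝ) ^ 2)
      (fun b _ => sq_nonneg _) (Finset.mem_univ a)
  · rw [Finset.sum_mul]
    refine Finset.sum_le_sum fun a _ => ?_
    rw [Finset.sum_mul]
    refine Finset.sum_le_sum fun b _ => ?_
    have := abs_real_inner_le_norm (X a b) H
    calc (inner ℝ (X a b) H : ℝ) ^ 2 = |(inner ℝ (X a b) H : ℝ)| ^ 2 := (sq_abs _).symm
      _ ≤ (‖X a b‖ * ‖H‖) ^ 2 := pow_le_pow_left₀ (abs_nonneg _) this 2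
      _ = ‖X a b‖ ^ 2 * ‖H‖ ^ 2 := by ring
  · have e1 : ‖H‖ ≤ ∑ a, ‖X a a‖ := by
      rw [hH]; exact norm_sum_le _ _
    have e2 : (∑ a, ‖X a a‖) ^ 2 ≤ n * ∑ a, ‖X a a‖ ^ 2 := by
      have := sq_sum_le_card_mul_sum_sq (s := (Finset.univ : Finset (Fin n)))
        (f := fun a => ‖X a a‖)
      simpa using this
    calc ‖H‖ ^ 2 ≤ (∑ a, ‖X a a‖) ^ 2 := pow_le_pow_left₀ (norm_nonneg _) e1 2
      _ ≤ n * ∑ a, ‖X a a‖ ^ 2 := e2
      _ ≤ n * ∑ a, ∑ b, ‖X a b‖ ^ 2 := by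
        refine mul_le_mul_of_nonneg_left ?_ (Nat.cast_nonneg n)
        refine Finset.sum_le_sum fun a _ => ?_
        exact Finset.single_le_sum (f := fun b => ‖X a b‖ ^ 2)
          (fun b _ => sq_nonneg _) (Finset.mem_univ a)

/-- The frame expressions of `mcv`, `nsq`, `zsq`. -/
theorem po_frame (hFR : StFR) {n N : ℕ} (f : EE n → EE N) (x : EE n) (hLI : LI f x) :
    ∃ X : Fin n → Fin n → EE N, mcv f x = ∑ a, X a a ∧
      nsq f x = (∑ a, ∑ b, ‖X a b‖ ^ 2) ∧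
      zsq f x = (∑ a, ∑ b, (inner ℝ (X a b) (mcv f x) : ℝ) ^ 2) := by
  obtain ⟨-, -, P, -, -, -, -, hF1, hF2, hF3⟩ := hFR n N f x hLI
  refine ⟨fun a b => ∑ i, ∑ j, (P i a * P j b) • sff f x i j, ?_, ?_, ?_⟩
  · exact hF1 _
  · refine (hF3 _ _).trans ?_
    refine Finset.sum_congr rfl fun a _ => Finset.sum_congr rfl fun b _ => ?_
    exact real_inner_self_eq_norm_sq _
  · refine (hF2 (fun i j => inner ℝ (sff f x i j) (mcv f x))
      (fun i j => inner ℝ (sff f x i j) (mcv f x))).trans ?_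
    refine Finset.sum_congr rfl fun a _ => Finset.sum_congr rfl fun b _ => ?_
    have e : (∑ i, ∑ j, P i a * P j b * (inner ℝ (sff f x i j) (mcv f x) : ℝ))
        = inner ℝ (∑ i, ∑ j, (P i a * P j b) • sff f x i j) (mcv f x) := by
      simp only [sum_inner, real_inner_smul_left]
    calc (∑ i, ∑ j, P i a * P j b * (inner ℝ (sff f x i j) (mcv f x) : ℝ))
          * (∑ i, ∑ j, P i a * P j b * (inner ℝ (sff f x i j) (mcv f x) : ℝ))
        = (∑ i, ∑ j, P i a * P j b * (inner ℝ (sff f x i j) (mcv f x) : ℝ)) ^ 2 :=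
          (pow_two _).symm
      _ = _ := congrArg (fun y : ℝ => y ^ 2) e

/-- Module PO. -/
theorem hPO (hFR : StFR) (hNR : StNR) : StPO := by
  intro n N hn M _ _ _ F hF p t ht
  have hLI : LI (loc (n := n) F p t) (chartAt (EE n) p p) := hF.imm p t ht
  obtain ⟨X, hH, hA, hZ⟩ := po_frame hFR (loc (n := n) F p t) (chartAt (EE n) p p) hLI
  have hHH : HH (n := n) F p t = ∑ a, X a a := hH
  have hAA : AA (n := n) F p t = ∑ a, ∑ b, ‖X a b‖ ^ 2 := hA
  have hZF : ZF (n := n) F p t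
      = ∑ a, ∑ b, (inner ℝ (X a b) (HH (n := n) F p t) : ℝ) ^ 2 := hZ
  obtain ⟨h1, h2, h3, h4, h5⟩ := po_alg X (HH (n := n) F p t) hHH
  rw [← hAA, ← hZF] at h4
  rw [← hAA] at h1 h5
  rw [← hZF] at h2 h3
  refine ⟨?_, ?_, ?_, ?_, ?_, ?_⟩
  · exact h1
  · exact h2
  · exact h3
  · exact h4
  · exact h5
  · intro v hv
    obtain ⟨hN1, -⟩ := hNR n N (loc (n := n) F p t) (chartAt (EE n) p p) hLI
    have key : ∀ i : Fin n, (inner ℝ (HH (n := n) F p t)
        (dv1 (loc (n := n) F p t) (chartAt (EE n) p p) i) : ℝ) = 0 := by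
      intro i
      unfold HH mcv
      simp only [sum_inner, real_inner_smul_left]
      refine Finset.sum_eq_zero fun a _ => Finset.sum_eq_zero fun b _ => ?_
      rw [sff, hN1, mul_zero]
    unfold TS at hv
    refine Submodule.span_induction (p := fun w _ => (inner ℝ (HH (n := n) F p t) w : ℝ) = 0)
      ?_ ?_ ?_ ?_ hv
    · rintro w ⟨i, rfl⟩
      exact key i
    · exact inner_zero_right _
    · intro u w _ _ hu hw
      rw [inner_add_right, hu, hw, add_zero]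
    · intro c w _ hw
      rw [real_inner_smul_right, hw, mul_zero]

end Helper51.PI
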