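import Pool.Agent.Helper35.PI.St1

/-! # Project PI (owner helper35), module QP -/

set_option autoImplicit false

namespace Helper51.PI

open Helper35.PI
open scoped BigOperators

private theorem QP_diag {n : ℕ} (μ : Fin n → ℝ) (Y : Matrix (Fin n) (Fin n) ℝ) :
    2 * (∑ i, μ i * Y i i) ^ 2 + ∑ i, ∑ j, ((μ i - μ j) * Y i j) ^ 2 ≤
      2 * (∑ i, μ i ^ 2) * ∑ i, ∑ j, Y i j ^ 2 := by
  have h1 : (∑ i, μ i * Y i i) ^ 2 ≤ (∑ i, μ i ^ 2) * ∑ i, Y i i ^ 2 := Finset.sum_mul_sq_le_sq_mul_sq _ _ _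
  have h2 : ∀ i j, ((μ i - μ j) * Y i j) ^ 2 ≤ 2 * (∑ i, μ i ^ 2) * Y i j ^ 2 - (if i = j then 2 * (∑ i, μ i ^ 2) * Y i i ^ 2 else 0) := by
    intro i j
    by_cases h : i = j
    · subst h
      simp
    · rw [if_neg h, sub_zero, mul_pow]
      refine mul_le_mul_of_nonneg_right ?_ (sq_nonneg _)
      have h3 : μ i ^ 2 + μ j ^ 2 ≤ ∑ i, μ i ^ 2 := by
        rw [← Finset.sum_pair (f := fun i => μ i ^ 2) h]
        exact Finset.sum_le_sum_of_subset_of_nonneg (Finset.subset_univ _) (fun _ _ _ => sq_nonneg _)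
      nlinarith [sq_nonneg (μ i + μ j)]
  have h4 : ∑ i, ∑ j, ((μ i - μ j) * Y i j) ^ 2 ≤
      ∑ i, ∑ j, (2 * (∑ i, μ i ^ 2) * Y i j ^ 2 - (if i = j then 2 * (∑ i, μ i ^ 2) * Y i i ^ 2 else 0)) :=
    Finset.sum_le_sum (fun i _ => Finset.sum_le_sum (fun j _ => h2 i j))
  have h5 : ∑ i, ∑ j, (2 * (∑ i, μ i ^ 2) * Y i j ^ 2 - (if i = j then 2 * (∑ i, μ i ^ 2) * Y i i ^ 2 else 0)) =
      2 * (∑ i, μ i ^ 2) * ∑ i, ∑ j, Y i j ^ 2 - 2 * (∑ i, μ i ^ 2) * ∑ i, Y i i ^ 2 := by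
    simp only [Finset.sum_sub_distrib, Finset.mul_sum, Finset.sum_ite_eq, Finset.mem_univ, if_true]
  rw [h5] at h4
  linarith

private theorem QP_fro {n : ℕ} (U : unitary (Matrix (Fin n) (Fin n) ℝ)) (Z : Matrix (Fin n) (Fin n) ℝ) :
    Matrix.trace (Unitary.conjStarAlgAut ℝ _ U Z) = Matrix.trace Z := by
  rw [Unitary.conjStarAlgAut_apply, Matrix.trace_mul_cycle]
  simp

private theorem QP_tr {n : ℕ} (X Y : Matrix (Fin n) (Fin n) ℝ) :
    Matrix.trace (X * star Y) = ∑ i, ∑ j, X i j * Y i j := by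
  unfold Matrix.trace
  refine Finset.sum_congr rfl (fun i _ => ?_)
  rw [Matrix.diag_apply, Matrix.mul_apply]
  refine Finset.sum_congr rfl (fun j _ => ?_)
  simp [Matrix.star_apply]

private theorem QP_conj {n : ℕ} (U : unitary (Matrix (Fin n) (Fin n) ℝ)) (μ : Fin n → ℝ) (Y M X : Matrix (Fin n) (Fin n) ℝ)
    (hMD : M = Unitary.conjStarAlgAut ℝ _ U (Matrix.diagonal μ)) (hY : X = Unitary.conjStarAlgAut ℝ _ U Y) :
    2 * (∑ i, ∑ j, M i j * X i j) ^ 2 + ∑ i, ∑ j, ((M * X - X * M) i j) ^ 2 ≤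
      2 * (∑ i, ∑ j, M i j ^ 2) * ∑ i, ∑ j, X i j ^ 2 := by
  have key := QP_diag μ Y
  have e1 : ∑ i, ∑ j, M i j * X i j = ∑ i, μ i * Y i i := by
    rw [← QP_tr, hMD, hY, ← map_star, ← map_mul, QP_fro, QP_tr]
    refine Finset.sum_congr rfl (fun i _ => ?_)
    simp [Matrix.diagonal_apply]
  have e2 : ∑ i, ∑ j, M i j ^ 2 = ∑ i, μ i ^ 2 := by
    have : ∑ i, ∑ j, M i j ^ 2 = ∑ i, ∑ j, M i j * M i j := by simp only [pow_two]
    rw [this, ← QP_tr, hMD, ← map_star, ← map_mul, QP_fro, QP_tr]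
    refine Finset.sum_congr rfl (fun i _ => ?_)
    simp [Matrix.diagonal_apply, pow_two]
  have e3 : ∑ i, ∑ j, X i j ^ 2 = ∑ i, ∑ j, Y i j ^ 2 := by
    have h1 : ∑ i, ∑ j, X i j ^ 2 = ∑ i, ∑ j, X i j * X i j := by simp only [pow_two]
    have h2 : ∑ i, ∑ j, Y i j ^ 2 = ∑ i, ∑ j, Y i j * Y i j := by simp only [pow_two]
    rw [h1, h2, ← QP_tr, ← QP_tr, hY, ← map_star, ← map_mul, QP_fro]
  have e4 : ∑ i, ∑ j, ((M * X - X * M) i j) ^ 2 = ∑ i, ∑ j, ((μ i - μ j) * Y i j) ^ 2 := by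
    have h1 : ∑ i, ∑ j, ((M * X - X * M) i j) ^ 2 = ∑ i, ∑ j, (M * X - X * M) i j * (M * X - X * M) i j := by
      simp only [pow_two]
    have h2 : M * X - X * M = Unitary.conjStarAlgAut ℝ _ U (Matrix.diagonal μ * Y - Y * Matrix.diagonal μ) := by
      rw [map_sub, map_mul, map_mul, ← hMD, ← hY]
    rw [h1, ← QP_tr, h2, ← map_star, ← map_mul, QP_fro, QP_tr]
    refine Finset.sum_congr rfl (fun i _ => Finset.sum_congr rfl (fun j _ => ?_))
    simp only [Matrix.sub_apply, Matrix.diagonal_mul, Matrix.mul_diagonal]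
    ring
  rw [e1, e2, e3, e4]
  exact key

private theorem QP_mat {n : ℕ} (M X : Matrix (Fin n) (Fin n) ℝ) (hM : M.IsHermitian) :
    2 * (∑ i, ∑ j, M i j * X i j) ^ 2 + ∑ i, ∑ j, ((M * X - X * M) i j) ^ 2 ≤
      2 * (∑ i, ∑ j, M i j ^ 2) * ∑ i, ∑ j, X i j ^ 2 := by
  refine QP_conj hM.eigenvectorUnitary hM.eigenvalues
    ((Unitary.conjStarAlgAut ℝ (Matrix (Fin n) (Fin n) ℝ) hM.eigenvectorUnitary).symm X) M X hM.spectral_theorem ?_
  exact (StarAlgEquiv.apply_symm_apply _ X).symm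

theorem hQP : StQP := by
  intro n N m B hm hB
  have hM : (Matrix.of m).IsHermitian := by
    ext i j
    simp [Matrix.conjTranspose_apply, hm j i]
  have key := fun b : Fin N => QP_mat (Matrix.of m) (Matrix.of (fun i j => B i j b)) hM
  have e1 : Pq m B = ∑ b, (∑ i, ∑ j, m i j * B i j b) ^ 2 := by
    unfold Pq sg
    rw [EuclideanSpace.norm_sq_eq]
    refine Finset.sum_congr rfl (fun b _ => ?_)
    rw [Real.norm_eq_abs, sq_abs]
    congr 1
    simp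
  have e2 : Qc m B = ∑ b, ∑ i, ∑ j, (∑ k, (m i k * B k j b - m k j * B i k b)) ^ 2 := by
    unfold Qc
    rw [Finset.sum_comm (s := (Finset.univ : Finset (Fin N)))]
    refine Finset.sum_congr rfl (fun i _ => ?_)
    rw [Finset.sum_comm (s := (Finset.univ : Finset (Fin N)))]
    refine Finset.sum_congr rfl (fun j _ => ?_)
    rw [EuclideanSpace.norm_sq_eq]
    refine Finset.sum_congr rfl (fun b _ => ?_)
    rw [Real.norm_eq_abs, sq_abs]
    congr 1
    simp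
  have e3 : rq B = ∑ b, ∑ i, ∑ j, (B i j b) ^ 2 := by
    unfold rq
    rw [Finset.sum_comm (s := (Finset.univ : Finset (Fin N)))]
    refine Finset.sum_congr rfl (fun i _ => ?_)
    rw [Finset.sum_comm (s := (Finset.univ : Finset (Fin N)))]
    refine Finset.sum_congr rfl (fun j _ => ?_)
    rw [EuclideanSpace.norm_sq_eq]
    refine Finset.sum_congr rfl (fun b _ => ?_)
    rw [Real.norm_eq_abs, sq_abs]
  rw [e1, e2, e3, Finset.mul_sum, Finset.mul_sum, ← Finset.sum_add_distrib]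
  refine Finset.sum_le_sum (fun b _ => ?_)
  have := key b
  simp only [Matrix.of_apply, Matrix.sub_apply, Matrix.mul_apply] at this
  unfold Helper35.PI.sq
  refine le_trans (le_of_eq ?_) this
  congr 1
  refine Finset.sum_congr rfl (fun i _ => Finset.sum_congr rfl (fun j _ => ?_))
  rw [← Finset.sum_sub_distrib]
  congr 1
  refine Finset.sum_congr rfl (fun k _ => ?_)
  ring

end Helper51.PI
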